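import Pool.Agent.helper59.GF.Spec

set_option autoImplicit false

namespace Pool.Agent.GF

open Filter Topology

theorem BNN (hLVL : LVL_stmt) : BNN_stmt := by
  classical
  intro p V ι ι' τ τ' _ _ _ _ s s' x ξ a b c sl e B ρ w hb hw hs' hell I hI hLoc η hη
  obtain ⟨α, β, γ, hLoc⟩ := hLoc
  obtain ⟨hm0, hm1⟩ := hLVL p (s' ∘ I) (hs'.comp hI)
  have hm1' := hm1 (fun r => hell (I r))
  let S0 : (Fin (p + 2) → τ') → ℝ := fun t => ∑ r, mu p (s' ∘ I) r *
    (α * ξ (t r) (I r) + β * sl (t r) +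
      γ * (sl (t r) * ξ (t r) (I r) + B (t r) (Yl p (s' (I r))) + e (t r)))
  let G : (Fin (p + 2) → τ') → (Fin p → ℝ) → ℝ := fun t κ => S0 t +
    ∑ r, mu p (s' ∘ I) r * (β * sl (t r) * ∑ q, κ q * Yl p (s' (I r)) q)
  have hG : ∀ᶠ κ in 𝓝 (0 : Fin p → ℝ), ∀ t, 0 < G t κ := by
    rw [Filter.eventually_all]
    intro t
    have hc : Continuous (G t) := by
      have : G t = fun κ => S0 t +
        ∑ r, mu p (s' ∘ I) r * (β * sl (t r) * ∑ q, κ q * Yl p (s' (I r)) q) := rfl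
      rw [this]
      fun_prop
    have h0 : G t 0 = S0 t := by simp [G]
    have h1 : 0 < G t 0 := by
      rw [h0]
      exact hLoc t
    exact hc.continuousAt.eventually (lt_mem_nhds h1)
  obtain ⟨κ₀, hκ₀, hball⟩ := Metric.eventually_nhds_iff.1 hG
  refine ⟨κ₀, hκ₀, fun κ hκ => ?_⟩
  have hGκ : ∀ t, 0 < G t κ := hball (by
    rw [dist_pi_lt_iff hκ₀]
    intro q
    rw [Real.dist_eq, Pi.zero_apply, sub_zero]
    exact hκ q)
  let H : (Fin (p + 2) → τ × τ') → ℝ := fun t => ∑ r, mu p (s' ∘ I) r *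
    (β * sl (t r).2 * ξ (t r).2 (I r) -
      β / η * (ρ (a (t r).1) + ρ (c (t r).1 (Yl p (s' (I r))))))
  have hev : ∀ᶠ L : ℝ in atTop, ∀ t : Fin (p + 2) → τ × τ',
      0 < G (fun r => (t r).2) κ + H t / L := by
    rw [Filter.eventually_all]
    intro t
    have h2 : Tendsto (fun L : ℝ => G (fun r => (t r).2) κ + H t / L) atTop
        (𝓝 (G (fun r => (t r).2) κ + 0)) :=
      tendsto_const_nhds.add (tendsto_const_nhds.div_atTop tendsto_id)
    rw [add_zero] at h2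
    exact h2.eventually (lt_mem_nhds (hGκ _))
  filter_upwards [hev, eventually_gt_atTop 0] with L hL hL0
  let f : (ℝ × (V × ℝ)) →ₗ[ℝ] ℝ := α • LinearMap.fst ℝ ℝ (V × ℝ) -
    (β / (η * L)) • (ρ ∘ₗ LinearMap.fst ℝ V ℝ ∘ₗ LinearMap.snd ℝ ℝ (V × ℝ)) +
    γ • (LinearMap.snd ℝ V ℝ ∘ₗ LinearMap.snd ℝ ℝ (V × ℝ))
  refine ⟨f, fun t => ?_⟩
  have hf : ∀ (z : ℝ) (v : V × ℝ), f (z, v) = α * z - β / (η * L) * ρ v.1 + γ * v.2 := by
    intro z v
    simp [f]
  have hterm : ∀ r : Fin (p + 2),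
      f (xN p s' x ξ κ L (t r) (Sum.inr (I r)), aN a sl e L (t r) +
        xN p s' x ξ κ L (t r) (Sum.inr (I r)) • bN b sl w η (t r) +
        cN c B sl κ L (t r) (Yl p (sN s s' (Sum.inr (I r))))) =
      α * L * (1 + ∑ q, κ q * Yl p (s' (I r)) q) +
      (α * ξ (t r).2 (I r) + β * sl (t r).2 +
        γ * (sl (t r).2 * ξ (t r).2 (I r) + B (t r).2 (Yl p (s' (I r))) + e (t r).2)) +
      β * sl (t r).2 * (∑ q, κ q * Yl p (s' (I r)) q) +
      (β * sl (t r).2 * ξ (t r).2 (I r) -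
        β / η * (ρ (a (t r).1) + ρ (c (t r).1 (Yl p (s' (I r)))))) / L := by
    intro r
    have hx : xN p s' x ξ κ L (t r) (Sum.inr (I r)) =
      L * (1 + ∑ q, κ q * Yl p (s' (I r)) q) + ξ (t r).2 (I r) := rfl
    have hY : sN s s' (Sum.inr (I r)) = s' (I r) := rfl
    rw [hf, hx, hY]
    generalize hS : ∑ q, κ q * Yl p (s' (I r)) q = S
    have hc1 : ((cN c B sl κ L (t r)) (Yl p (s' (I r)))).1 = c (t r).1 (Yl p (s' (I r))) := rfl
    have hc2 : ((cN c B sl κ L (t r)) (Yl p (s' (I r)))).2 =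
        B (t r).2 (Yl p (s' (I r))) - sl (t r).2 * L * S := by
      rw [← hS]
      simp [cN, LinearMap.sum_apply]
    rw [Prod.fst_add, Prod.fst_add, Prod.snd_add, Prod.snd_add, hc1, hc2]
    simp only [aN, bN, Prod.smul_fst, Prod.smul_snd, map_add, map_smul, map_sub, hb, hw, smul_eq_mul,
      mul_one, zero_sub]
    field_simp
    ring
  have key : ∑ r, mu p (sN s s' ∘ fun r => Sum.inr (I r)) r *
      f (xN p s' x ξ κ L (t r) (Sum.inr (I r)), aN a sl e L (t r) +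
        xN p s' x ξ κ L (t r) (Sum.inr (I r)) • bN b sl w η (t r) +
        cN c B sl κ L (t r) (Yl p (sN s s' (Sum.inr (I r))))) =
      G (fun r => (t r).2) κ + H t / L := by
    have h3 : (sN s s' ∘ fun r => Sum.inr (I r)) = s' ∘ I := rfl
    rw [h3]
    have h4 : ∑ r, mu p (s' ∘ I) r * (α * L * (1 + ∑ q, κ q * Yl p (s' (I r)) q)) = 0 := by
      have h5 : ∀ r, mu p (s' ∘ I) r * (α * L * (1 + ∑ q, κ q * Yl p (s' (I r)) q)) =
          α * L * mu p (s' ∘ I) r + α * L * ∑ q, κ q * (mu p (s' ∘ I) r * Yl p ((s' ∘ I) r) q) := by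
        intro r
        have h6 : ∑ q, κ q * (mu p (s' ∘ I) r * Yl p ((s' ∘ I) r) q) =
            mu p (s' ∘ I) r * ∑ q, κ q * Yl p (s' (I r)) q := by
          rw [Finset.mul_sum]
          refine Finset.sum_congr rfl fun q _ => ?_
          rw [Function.comp_apply]
          ring
        rw [h6]
        ring
      simp only [h5]
      rw [Finset.sum_add_distrib, ← Finset.mul_sum, hm0, mul_zero, zero_add, ← Finset.mul_sum,
        Finset.sum_comm]
      have h7 : ∀ q : Fin p, ∑ r, κ q * (mu p (s' ∘ I) r * Yl p ((s' ∘ I) r) q) = 0 := by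
        intro q
        rw [← Finset.mul_sum, hm1' q, mul_zero]
      simp only [h7, Finset.sum_const_zero, mul_zero]
    have h8 : G (fun r => (t r).2) κ + H t / L = 0 + (G (fun r => (t r).2) κ + H t / L) := by ring
    rw [h8, ← h4]
    simp only [G, S0, H]
    rw [Finset.sum_div, ← Finset.sum_add_distrib, ← Finset.sum_add_distrib,
      ← Finset.sum_add_distrib]
    refine Finset.sum_congr rfl fun r _ => ?_
    rw [hterm r]
    ring
  change 0 < ∑ r, mu p (sN s s' ∘ fun r => Sum.inr (I r)) r *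
      f (xN p s' x ξ κ L (t r) (Sum.inr (I r)), aN a sl e L (t r) +
        xN p s' x ξ κ L (t r) (Sum.inr (I r)) • bN b sl w η (t r) +
        cN c B sl κ L (t r) (Yl p (sN s s' (Sum.inr (I r)))))
  rw [key]
  exact hL t

end Pool.Agent.GF
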